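import Pool.Agent.Q116.Lights.Count

set_option autoImplicit false

namespace Pool.Agent.Results.MP_7a9eeb_co.LightsOutGap

open scoped Classical in
/-- The neighborhood Lights Out game modulo `ℓ` on `G` can be won from every initial labeling:
for every labeling `lab` there are numbers of toggles `t v` such that adding `1` to every label in
the closed neighborhood of `v`, `t v` times for each `v`, makes all labels `0`. -/
def AlwaysWinnable {V : Type} [Fintype V] (ℓ : ℕ) (G : SimpleGraph V) : Prop :=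
  ∀ lab : V → ZMod ℓ, ∃ t : V → ℕ, ∀ v : V,
    lab v + ∑ u : V, (if u = v ∨ G.Adj u v then (t u : ZMod ℓ) else 0) = 0

open Q116.Lights

theorem transfer {V : Type} [Fintype V] (ℓ n E : ℕ) (G : SimpleGraph V)
    (hn : Fintype.card V = n) (hG : AlwaysWinnable ℓ G) (hE : G.edgeSet.ncard = E) :
    ∃ G' : SimpleGraph (Fin n), AlwaysWinnable ℓ G' ∧ G'.edgeSet.ncard = E := by
  have e : V ≃ Fin n := Fintype.equivFinOfCardEq hn
  refine ⟨G.comap e.symm, ?_, ?_⟩
  · intro lab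
    obtain ⟨t, ht⟩ := hG (lab ∘ e)
    refine ⟨t ∘ e.symm, fun v => ?_⟩
    have h := ht (e.symm v)
    simp only [Function.comp, Equiv.apply_symm_apply] at h
    rw [← e.sum_comp]
    refine Eq.trans ?_ h
    congr 1
    refine Finset.sum_congr rfl fun u _ => ?_
    have h2 : (e u = v ∨ (G.comap e.symm).Adj (e u) v) ↔
        (u = e.symm v ∨ G.Adj u (e.symm v)) := by
      rw [Equiv.eq_symm_apply, SimpleGraph.comap_adj, Equiv.symm_apply_apply]
    simp only [Function.comp, Equiv.symm_apply_apply]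
    by_cases h3 : u = e.symm v ∨ G.Adj u (e.symm v)
    · rw [if_pos h3, if_pos (h2.2 h3)]
    · rw [if_neg h3, if_neg (fun h4 => h3 (h2.1 h4))]
  · rw [← hE, ← Nat.card_coe_set_eq, ← Nat.card_coe_set_eq]
    exact Nat.card_congr (SimpleGraph.Iso.comap e.symm G).mapEdgeSet

theorem family (a b n ℓ : ℕ) (hn : Even n) (hab : 2 * a + 2 * b + 6 ≤ n) (hl : 2 ≤ ℓ)
    (hg : Nat.gcd (n - 3 + 2 * a * b) ℓ = 1) :
    ∃ G : SimpleGraph (Fin n), AlwaysWinnable ℓ G ∧
      G.edgeSet.ncard + (n / 2 + (a + b + 2)) = n.choose 2 := by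
  obtain ⟨c, hc⟩ := hn
  obtain ⟨m, rfl⟩ : ∃ m, c = a + b + 3 + m := ⟨c - (a + b + 3), by omega⟩
  have hcard : Fintype.card (Vtx (a + 1) (b + 1) m) = n := by
    rw [card_vtx]; omega
  have hedge := card_edges_compl (s := a + 1) (r := b + 1) (m := m)
  have hnn : 2 + 2 * (a + 1) + 2 * (b + 1) + 2 * m = n := by omega
  rw [hnn] at hedge
  have hwin : AlwaysWinnable ℓ (H (a + 1) (b + 1) m)ᶜ := by
    have : NeZero ℓ := ⟨by omega⟩
    intro lab
    have hD : n - 3 + 2 * a * b = 1 + 2 * (b + 1) * (a + 1) + 2 * m := by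
      have : n - 3 = 3 + 2 * a + 2 * b + 2 * m := by omega
      rw [this]
      ring
    have hu : IsUnit ((n - 3 + 2 * a * b : ℕ) : ZMod ℓ) :=
      (ZMod.isUnit_iff_coprime _ _).2 hg
    obtain ⟨D, hD2⟩ := hu.exists_left_inv
    rw [hD] at hD2
    obtain ⟨x, hx⟩ := solvable lab D (by push_cast at hD2 ⊢; exact hD2)
    refine ⟨fun v => (x v).val, fun v => ?_⟩
    simp only [ZMod.natCast_val, ZMod.cast_id', id_eq]
    convert hx v
  obtain ⟨G, hG1, hG2⟩ := transfer ℓ n _ _ hcard hwin rfl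
  refine ⟨G, hG1, ?_⟩
  rw [hG2]
  omega

/-- **Main result.** -/
theorem result :
    (∀ a b n ℓ : ℕ, Even n → 2 * a + 2 * b + 6 ≤ n → 2 ≤ ℓ →
      Nat.gcd (n - 3 + 2 * a * b) ℓ = 1 →
      ∃ G : SimpleGraph (Fin n), AlwaysWinnable ℓ G ∧
        G.edgeSet.ncard + (n / 2 + (a + b + 2)) = n.choose 2) ∧
    (∀ M N : ℕ, ∃ n ℓ k : ℕ, N ≤ n ∧ Even n ∧ 2 ≤ n ∧ Even ℓ ∧ 2 ≤ ℓ ∧ 4 ≤ k ∧
      IsLeast {j : ℕ | Int.gcd ((n : ℤ) - 2 * j - 1) ℓ = 1} k ∧
      ∃ G : SimpleGraph (Fin n), AlwaysWinnable ℓ G ∧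
        n.choose 2 + M < G.edgeSet.ncard + (n / 2 + k)) := by
  refine ⟨family, fun M N => ?_⟩
  obtain ⟨q, hqN, hq⟩ := Nat.exists_infinite_primes (N + 2 * M + 40)
  obtain ⟨n, rfl⟩ : ∃ n, q = n + 1 := ⟨q - 1, by omega⟩
  have hqodd : Odd (n + 1) := hq.odd_of_ne_two (by omega)
  have hneven : Even n := by
    rcases Nat.even_or_odd n with h | h
    · exact h
    · exfalso
      exact (Nat.not_even_iff_odd.2 hqodd) h.add_one
  set K := M + 6 with hK
  set ℓ := 2 * ∏ i ∈ Finset.range K, (n - 2 * i - 1) with hℓ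
  have hpos : ∀ i ∈ Finset.range K, 0 < n - 2 * i - 1 := by
    intro i hi
    have := Finset.mem_range.1 hi
    omega
  have hprod : 0 < ∏ i ∈ Finset.range K, (n - 2 * i - 1) := Finset.prod_pos hpos
  have hex : ∃ j : ℕ, Int.gcd ((n : ℤ) - 2 * j - 1) ℓ = 1 := by
    obtain ⟨c, hc⟩ := hneven
    refine ⟨c - 1, ?_⟩
    have : (n : ℤ) - 2 * ((c - 1 : ℕ) : ℤ) - 1 = 1 := by
      have h1 : 1 ≤ c := by omega
      push_cast [Nat.cast_sub h1]
      omega
    rw [this]
    exact Int.one_gcd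
  have hk : ∀ j : ℕ, Int.gcd ((n : ℤ) - 2 * j - 1) ℓ = 1 → K ≤ j := by
    intro j hj
    by_contra hlt
    push Not at hlt
    have h1 : (n : ℤ) - 2 * j - 1 = ((n - 2 * j - 1 : ℕ) : ℤ) := by omega
    have h2 : (n - 2 * j - 1) ∣ ℓ :=
      Dvd.dvd.mul_left (Finset.dvd_prod_of_mem _ (Finset.mem_range.2 hlt)) 2
    rw [h1, Int.gcd_natCast_natCast, Nat.gcd_eq_left h2] at hj
    omega
  refine ⟨n, ℓ, Nat.find hex, by omega, hneven, by omega, even_two_mul _, by omega, ?_,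
    ⟨Nat.find_spec hex, fun j hj => Nat.find_min' hex hj⟩, ?_⟩
  · have := hk _ (Nat.find_spec hex)
    omega
  · have hKle := hk _ (Nat.find_spec hex)
    have hcop : Nat.gcd (n - 3 + 2 * 1 * 2) ℓ = 1 := by
      have h1 : n - 3 + 2 * 1 * 2 = n + 1 := by omega
      rw [h1]
      change Nat.Coprime (n + 1) ℓ
      rw [hℓ]
      refine Nat.Coprime.mul_right ?_ ?_
      · rw [Nat.coprime_primes hq Nat.prime_two]
        omega
      · refine Nat.Coprime.prod_right fun i hi => ?_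
        rw [Nat.Prime.coprime_iff_not_dvd hq]
        intro hdvd
        have := Nat.le_of_dvd (hpos i hi) hdvd
        omega
    obtain ⟨G, hG1, hG2⟩ := family 1 2 n ℓ hneven (by omega) (by omega) hcop
    refine ⟨G, hG1, ?_⟩
    omega

end Pool.Agent.Results.MP_7a9eeb_co.LightsOutGap
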